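import Pool.Agent.Lib.MP_28303a_al.TW.Lemmas

/-! # Module FAM: the family of all iterated components -/

set_option autoImplicit false
set_option linter.unusedSectionVars false
set_option linter.unusedVariables false

namespace Pool.Agent.NegK.TW.H69

universe u v w

open Matrix MonoidAlgebra

section fam

variable {k Γ D : Type u} [Ring k] [Group Γ] [MulAction Γ D] {J : Type} [Fintype J]
  [DecidableEq J]

/-- The pairs `(j, l)` with `l = []` or a nonzero iterated component. -/
def famSet (dg : J → D) (μ : Matrix J J (MonoidAlgebra k Γ)) : Set (J × List D) :=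
  {p | p.2 = [] ∨ itc dg μ p.2 (Pi.single p.1 (1 : MonoidAlgebra k Γ)) ≠ 0}

theorem famSet_len {dg : J → D} {μ : Matrix J J (MonoidAlgebra k Γ)} {d : ℕ}
    (h : ChainNil dg μ d) {p : J × List D} (hp : p ∈ famSet dg μ) : p.2.length ≤ d := by
  rcases hp with h1 | h1
  · rw [h1]; exact Nat.zero_le _
  · by_contra hc
    exact h1 (h.of_le _ (by omega) _)

theorem famSet_finite {dg : J → D} {μ : Matrix J J (MonoidAlgebra k Γ)} {d : ℕ}
    (h : ChainNil dg μ d) : (famSet dg μ).Finite := by
  classical
  have h1 : ∀ n : ℕ, {p : J × List D | p ∈ famSet dg μ ∧ p.2.length = n}.Finite := by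
    intro n
    induction n with
    | zero =>
      refine (Set.finite_range (fun j : J => (j, ([] : List D)))).subset ?_
      rintro ⟨j, l⟩ ⟨_, hl⟩
      have hl' : l.length = 0 := hl
      rw [List.length_eq_zero_iff] at hl'
      exact ⟨j, by rw [hl']⟩
    | succ n ih =>
      choose F hF using fun p : J × List D => exists_degrees dg
        ((itc dg μ p.2 (Pi.single p.1 (1 : MonoidAlgebra k Γ))) ᵥ* μ)
      refine (ih.biUnion fun p _ => ((F p).finite_toSet.image
        (fun c => (p.1, p.2 ++ [c])))).subset ?_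
      rintro ⟨j, l⟩ ⟨hp, hl⟩
      have hl' : l.length = n + 1 := hl
      have hne' : l ≠ [] := by
        rintro rfl
        simp at hl'
      obtain ⟨l₀, c, rfl⟩ : ∃ l₀ c, l = l₀ ++ [c] :=
        ⟨l.dropLast, l.getLast hne', (List.dropLast_append_getLast hne').symm⟩
      have hl₀ : l₀.length = n := by
        rw [List.length_append, List.length_singleton] at hl'
        omega
      have hp' : itc dg μ (l₀ ++ [c]) (Pi.single j (1 : MonoidAlgebra k Γ)) ≠ 0 := by
        rcases hp with h2 | h2
        · exact absurd h2 hne'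
        · exact h2
      rw [itc_append, itc_cons, itc_nil] at hp'
      refine Set.mem_biUnion (x := (j, l₀)) ⟨Or.inr ?_, hl₀⟩ ⟨c, ?_, rfl⟩
      · intro h0
        have h0' : itc dg μ l₀ (Pi.single j (1 : MonoidAlgebra k Γ)) = 0 := h0
        rw [h0', Matrix.zero_vecMul, map_zero] at hp'
        exact hp' rfl
      · by_contra hc
        refine hp' ((hF (j, l₀)).res_eq_zero fun a ha hac => ?_)
        have : a = c := hac
        exact hc (this ▸ ha)
  refine (Set.Finite.biUnion (Finset.range (d + 1)).finite_toSet fun n _ => h1 n).subset ?_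
  intro p hp
  refine Set.mem_biUnion (x := p.2.length) ?_ ⟨hp, rfl⟩
  rw [Finset.mem_coe, Finset.mem_range]
  have := famSet_len h hp
  omega

end fam

theorem fam : FamStatement.{u} := by
  intro k Γ D _ _ _ J _ _ dg μ d hμ
  classical
  have hfin := famSet_finite hμ
  obtain ⟨n, ⟨e⟩⟩ : ∃ n, Nonempty (famSet dg μ ≃ Fin n) := by
    have : Finite (famSet dg μ) := hfin
    obtain ⟨n, h⟩ := Finite.exists_equiv_fin (famSet dg μ)
    exact ⟨n, h⟩
  let τ : Fin n → J × List D := fun i => (e.symm i).1
  have hτ : ∀ i, τ i ∈ famSet dg μ := fun i => (e.symm i).2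
  have hτi : ∀ i i', τ i = τ i' → i = i' := fun i i' h =>
    e.symm.injective (Subtype.ext h)
  have hτs : ∀ p ∈ famSet dg μ, ∃ i, τ i = p := fun p hp =>
    ⟨e ⟨p, hp⟩, by show (e.symm (e ⟨p, hp⟩)).1 = p; rw [Equiv.symm_apply_apply]⟩
  let z : Matrix (Fin n) J (MonoidAlgebra k Γ) := fun i =>
    itc dg μ (τ i).2 (Pi.single (τ i).1 (1 : MonoidAlgebra k Γ))
  let c : Fin n → D := fun i => ((τ i).2.getLast?).getD (dg (τ i).1)
  let N : Matrix (Fin n) (Fin n) ℤ := fun i i' =>
    if (τ i').1 = (τ i).1 ∧ ∃ c', (τ i').2 = (τ i).2 ++ [c'] then 1 else 0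
  have hc : ∀ i, Spt dg {c i} (z i) := by
    intro i
    rcases List.eq_nil_or_concat' (τ i).2 with h1 | ⟨l₀, c₀, h1⟩
    · have h2 : c i = dg (τ i).1 := by
        show ((τ i).2.getLast?).getD (dg (τ i).1) = _
        rw [h1]; rfl
      have h3 : z i = Pi.single (τ i).1 1 := by
        show itc dg μ (τ i).2 _ = _
        rw [h1, itc_nil]
      rw [h2, h3]
      exact spt_single dg _
    · have h2 : c i = c₀ := by
        show ((τ i).2.getLast?).getD (dg (τ i).1) = _
        rw [h1, List.getLast?_append]
        rfl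
      have h3 : z i = itc dg μ (l₀ ++ [c₀]) (Pi.single (τ i).1 1) := by
        show itc dg μ (τ i).2 _ = _
        rw [h1]
      rw [h2, h3]
      exact itc_spt dg μ l₀ c₀ _
  choose a ha using fun j : J => hτs (j, ([] : List D)) (Or.inl rfl)
  have hza : ∀ j, z (a j) = Pi.single j 1 := by
    intro j
    show itc dg μ (τ (a j)).2 (Pi.single (τ (a j)).1 1) = _
    rw [ha j]
    rfl
  refine ⟨Fin n, inferInstance, inferInstance, z, N, c, a, hc, ?_, ?_, ?_, hza⟩
  · -- degrees
    intro i
    rcases hτ i with h1 | h1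
    · refine ⟨(τ i).1, 1, ?_⟩
      rw [one_smul]
      show ((τ i).2.getLast?).getD (dg (τ i).1) = _
      rw [h1]; rfl
    · have h2 : z i ≠ 0 := h1
      obtain ⟨j, hj⟩ := Function.ne_iff.1 h2
      obtain ⟨h, hh⟩ : ∃ h, (z i j).coeff h ≠ 0 := by
        by_contra hcon
        push Not at hcon
        refine hj ?_
        ext g
        exact hcon g
      exact ⟨j, h, (hc i j h hh).symm⟩
  · -- the relation
    have hNeq : ∀ (i i' : Fin n), (N.map (Int.castRingHom (MonoidAlgebra k Γ))) i i' =
        if (τ i').1 = (τ i).1 ∧ ∃ c', (τ i').2 = (τ i).2 ++ [c'] then 1 else 0 := by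
      intro i i'
      rw [Matrix.map_apply]
      show (Int.castRingHom (MonoidAlgebra k Γ)) (if _ then 1 else 0) = _
      split_ifs <;> simp
    funext i
    have hL : (z * μ) i = z i ᵥ* μ := rfl
    have hR : (N.map (Int.castRingHom (MonoidAlgebra k Γ)) * z) i = ∑ i',
        if (τ i').1 = (τ i).1 ∧ ∃ c', (τ i').2 = (τ i).2 ++ [c'] then z i' else 0 := by
      funext j
      rw [Matrix.mul_apply, Finset.sum_apply]
      refine Finset.sum_congr rfl fun i' _ => ?_
      rw [hNeq]
      split_ifs
      · rw [one_mul]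
      · rw [zero_mul]; rfl
    rw [hL, hR]
    refine eq_of_res (dg := dg) fun c₁ => ?_
    rw [map_sum]
    have hlhs : res dg {c₁} (z i ᵥ* μ) =
        itc dg μ ((τ i).2 ++ [c₁]) (Pi.single (τ i).1 (1 : MonoidAlgebra k Γ)) := by
      rw [itc_append, itc_cons, itc_nil]
    rw [hlhs]
    -- each term
    have hterm : ∀ i', res dg {c₁} (if (τ i').1 = (τ i).1 ∧ ∃ c', (τ i').2 = (τ i).2 ++ [c']
        then z i' else 0) = if τ i' = ((τ i).1, (τ i).2 ++ [c₁]) then z i' else 0 := by
      intro i'
      by_cases h1 : (τ i').1 = (τ i).1 ∧ ∃ c', (τ i').2 = (τ i).2 ++ [c']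
      · rw [if_pos h1]
        obtain ⟨h2, c', h3⟩ := h1
        have hci : c i' = c' := by
          show ((τ i').2.getLast?).getD (dg (τ i').1) = _
          rw [h3, List.getLast?_append]
          rfl
        have hsp := hc i'
        rw [hci] at hsp
        by_cases h4 : c' = c₁
        · subst h4
          rw [if_pos (show τ i' = ((τ i).1, (τ i).2 ++ [c']) from Prod.ext h2 h3), hsp.res_eq]
        · rw [if_neg, hsp.res_eq_zero]
          · rintro d' hd' hd''
            have e1 : d' = c' := hd'
            have e2 : d' = c₁ := hd''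
            exact h4 (e1.symm.trans e2)
          · intro h5
            have h6 : (τ i').2 = (τ i).2 ++ [c₁] := by rw [h5]
            rw [h3] at h6
            have h7 := List.append_cancel_left h6
            exact h4 (by simpa using h7)
      · rw [if_neg h1, map_zero, if_neg]
        intro h5
        exact h1 ⟨by rw [h5], c₁, by rw [h5]⟩
    rw [Finset.sum_congr rfl fun i' _ => hterm i']
    by_cases h1 : itc dg μ ((τ i).2 ++ [c₁]) (Pi.single (τ i).1 (1 : MonoidAlgebra k Γ)) = 0
    · rw [h1]
      symm
      refine Finset.sum_eq_zero fun i' _ => ?_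
      split_ifs with h2
      · show itc dg μ (τ i').2 (Pi.single (τ i').1 1) = 0
        rw [h2]
        exact h1
      · rfl
    · obtain ⟨i₁, hi₁⟩ := hτs ((τ i).1, (τ i).2 ++ [c₁]) (Or.inr h1)
      rw [Finset.sum_eq_single i₁]
      · rw [if_pos hi₁]
        show _ = itc dg μ (τ i₁).2 (Pi.single (τ i₁).1 1)
        rw [hi₁]
      · intro i' _ hi'
        rw [if_neg]
        intro h2
        exact hi' (hτi _ _ (h2.trans hi₁.symm))
      · intro hc'
        exact absurd (Finset.mem_univ _) hc'
  · -- nilpotency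
    have h1 : ∀ (m : ℕ) (i i' : Fin n), (N ^ m) i i' ≠ 0 →
        (τ i').2.length = (τ i).2.length + m := by
      intro m
      induction m with
      | zero =>
        intro i i' h
        rw [pow_zero] at h
        by_cases hii : i = i'
        · subst hii; rw [add_zero]
        · rw [Matrix.one_apply_ne hii] at h
          exact absurd rfl h
      | succ m ih =>
        intro i i' h
        rw [pow_succ, Matrix.mul_apply] at h
        obtain ⟨i₁, _, h2⟩ := Finset.exists_ne_zero_of_sum_ne_zero h
        have h3 := ih i i₁ (left_ne_zero_of_mul h2)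
        have h4 := right_ne_zero_of_mul h2
        have h5 : (τ i').1 = (τ i₁).1 ∧ ∃ c', (τ i').2 = (τ i₁).2 ++ [c'] := by
          by_contra hcon
          exact h4 (if_neg hcon)
        obtain ⟨_, c', h6⟩ := h5
        rw [h6, List.length_append, List.length_singleton, h3]
        omega
    refine ⟨d + 1, ?_⟩
    ext1 i i'
    by_contra h2
    have h3 := h1 (d + 1) i i' h2
    have h4 := famSet_len hμ (hτ i')
    omega

end Pool.Agent.NegK.TW.H69
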