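import Pool.Agent.Lib.MP_28303a_al.TW.Lemmas

/-! # Module CHN: iterated components vanish in refinements -/

set_option autoImplicit false
set_option linter.unusedSectionVars false
set_option linter.unusedVariables false

namespace Pool.Agent.NegK.TW.H69

universe u v w

open Matrix MonoidAlgebra

section chn

variable {k Γ 𝔻 : Type u} [Ring k] [Group Γ] [MulAction Γ 𝔻] {J : Type} [Fintype J]
  [DecidableEq J]

/-- The support of the powers. -/
theorem pow_mem_wd (ν : Matrix J J (MonoidAlgebra k Γ)) (j : J) (n : ℕ) :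
    ∀ (l : J) (h : Γ), ((Pi.single j (1 : MonoidAlgebra k Γ) ᵥ* ν ^ n) l).coeff h ≠ 0 →
      (h, l) ∈ Wd ν j n := by
  induction n with
  | zero =>
    intro l h hh
    rw [pow_zero, Matrix.vecMul_one] at hh
    by_cases hl : l = j
    · subst hl
      rw [Pi.single_eq_same, MonoidAlgebra.one_def] at hh
      rw [coeff_single_ne hh]
      exact Set.mem_singleton _
    · rw [Pi.single_eq_of_ne hl] at hh
      exact absurd rfl hh
  | succ n ih =>
    intro l h hh
    rw [pow_succ, ← Matrix.vecMul_vecMul] at hh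
    rw [Matrix.vecMul, dotProduct] at hh
    obtain ⟨i, _, hi⟩ := coeff_sum_ne hh
    obtain ⟨a, b, ha, hb, rfl⟩ := coeff_mul_ne_zero hi
    exact ⟨(a, i), ih i a ha, b, hb, rfl⟩

/-- Step 1: rows `e_j ν ^ n` vanish for large `n`. -/
theorem exists_pow_zero (P : GRel Γ 𝔻) (hP : Levels P) (dg : J → 𝔻)
    (ν : Matrix J J (MonoidAlgebra k Γ)) (hν : Sup dg dg P.R ν) (hu : IsUnit (1 - ν)) (j : J) :
    ∃ d : ℕ, ∀ n, d ≤ n → Pi.single j (1 : MonoidAlgebra k Γ) ᵥ* ν ^ n = 0 := by
  classical
  obtain ⟨f, hf0, hf1, hf2, hf3⟩ := hP (dg j)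
  obtain ⟨U, hU⟩ := hu
  set x : J → MonoidAlgebra k Γ := Pi.single j 1 with hx
  set y : J → MonoidAlgebra k Γ := x ᵥ* (U⁻¹ : (Matrix J J (MonoidAlgebra k Γ))ˣ).val with hy
  have hyx : y = x + y ᵥ* ν := by
    have h1 : y ᵥ* (1 - ν) = x := by
      rw [hy, Matrix.vecMul_vecMul, ← hU, Units.inv_mul, Matrix.vecMul_one]
    rw [Matrix.vecMul_sub, Matrix.vecMul_one] at h1
    rw [← h1, sub_add_cancel]
  have hx0 : Spt dg {d | f d = 0} x := by
    refine (spt_single dg j).mono ?_
    rintro d rfl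
    exact hf0
  -- degrees of `y`
  obtain ⟨F, hF⟩ := exists_degrees dg y
  obtain ⟨B, hB⟩ : ∃ B : ℕ, ∀ d ∈ F, |f d| ≤ B := by
    refine ⟨∑ d ∈ F, (f d).natAbs, fun d hd => ?_⟩
    have h1 : (f d).natAbs ≤ ∑ d ∈ F, (f d).natAbs :=
      Finset.single_le_sum (f := fun d => (f d).natAbs) (fun _ _ => Nat.zero_le _) hd
    rw [Int.abs_eq_natAbs]
    exact_mod_cast h1
  have hstep : ∀ (m : ℤ) (z : J → MonoidAlgebra k Γ), Spt dg {d | m ≤ f d} z →
      Spt dg {d | m + 1 ≤ f d} (z ᵥ* ν) := by
    intro m z hz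
    refine Sup.spt P.inv hν ?_ hz
    intro d hd d' hdd
    have h1 := hf1 d d' hdd
    have h2 : m ≤ f d := hd
    show m + 1 ≤ f d'
    omega
  have hlow : ∀ n : ℕ, -(B : ℤ) + n ≤ 0 → Spt dg {d | -(B : ℤ) + n ≤ f d} y := by
    intro n
    induction n with
    | zero =>
      intro _
      refine hF.mono fun d hd => ?_
      have h1 := hB d hd
      rw [abs_le] at h1
      show -(B : ℤ) + ((0 : ℕ) : ℤ) ≤ f d
      rw [Nat.cast_zero, add_zero]
      exact h1.1
    | succ n ih =>
      intro hn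
      have h1 := ih (by push_cast at hn ⊢; omega)
      rw [hyx]
      refine Spt.add (hx0.mono ?_) ((hstep _ _ h1).mono ?_)
      · intro d hd
        have h2 : f d = 0 := hd
        show -(B : ℤ) + ((n + 1 : ℕ) : ℤ) ≤ f d
        rw [h2]
        exact hn
      · intro d hd
        have h2 : -(B : ℤ) + n + 1 ≤ f d := hd
        show -(B : ℤ) + ((n + 1 : ℕ) : ℤ) ≤ f d
        push_cast
        omega
  have hy0 : Spt dg {d | 0 ≤ f d} y := by
    have h1 := hlow B (by omega)
    refine h1.mono fun d hd => ?_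
    have h2 : -(B : ℤ) + B ≤ f d := hd
    show 0 ≤ f d
    omega
  -- powers
  have hpow : ∀ n : ℕ, Spt dg {d | f d = n} (x ᵥ* ν ^ n) := by
    intro n
    induction n with
    | zero =>
      rw [pow_zero, Matrix.vecMul_one]
      exact hx0.mono fun d hd => by
        show f d = ((0 : ℕ) : ℤ)
        rw [Nat.cast_zero]
        exact hd
    | succ n ih =>
      rw [pow_succ, ← Matrix.vecMul_vecMul]
      refine Sup.spt P.inv hν ?_ ih
      intro d hd d' hdd
      have h1 : f d = n := hd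
      have h2 := hf2 d d' hdd (by rw [h1]; exact Int.natCast_nonneg n)
      show f d' = ((n + 1 : ℕ) : ℤ)
      rw [h2, h1]
      push_cast
      rfl
  have hrest : ∀ n : ℕ, Spt dg {d | (n : ℤ) ≤ f d} (y - ∑ i ∈ Finset.range n, x ᵥ* ν ^ i) := by
    intro n
    induction n with
    | zero =>
      rw [Finset.range_zero, Finset.sum_empty, sub_zero]
      exact hy0.mono fun d hd => by
        show ((0 : ℕ) : ℤ) ≤ f d
        rw [Nat.cast_zero]
        exact hd
    | succ n ih =>
      have h1 : y - ∑ i ∈ Finset.range (n + 1), x ᵥ* ν ^ i =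
          (y - ∑ i ∈ Finset.range n, x ᵥ* ν ^ i) ᵥ* ν := by
        rw [Finset.sum_range_succ', pow_zero, Matrix.vecMul_one, Matrix.sub_vecMul,
          Matrix.sum_vecMul]
        have h2 : ∑ i ∈ Finset.range n, x ᵥ* ν ^ (i + 1) =
            ∑ i ∈ Finset.range n, x ᵥ* ν ^ i ᵥ* ν := by
          refine Finset.sum_congr rfl fun i _ => ?_
          rw [pow_succ, ← Matrix.vecMul_vecMul]
        rw [h2]
        conv_lhs => rw [hyx]
        abel
      rw [h1]
      refine (hstep _ _ ih).mono ?_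
      intro d hd
      have h3 : (n : ℤ) + 1 ≤ f d := hd
      show ((n + 1 : ℕ) : ℤ) ≤ f d
      push_cast
      exact h3
  refine ⟨B + 1, fun n hn => ?_⟩
  have h1 := hrest (n + 1)
  rw [Finset.sum_range_succ] at h1
  -- the part of level `n`
  have h2 : res dg {d | f d = n} (y - (∑ i ∈ Finset.range n, x ᵥ* ν ^ i + x ᵥ* ν ^ n)) = 0 := by
    refine h1.res_eq_zero fun d hd hc => ?_
    have h3 : ((n + 1 : ℕ) : ℤ) ≤ f d := hd
    have h4 : f d = n := hc
    push_cast at h3
    omega
  have h3 : res dg {d | f d = n} y = 0 := by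
    refine hF.res_eq_zero fun d hd hc => ?_
    have h4 := hB d hd
    rw [abs_le] at h4
    have h5 : f d = n := hc
    have h6 : (B : ℤ) + 1 ≤ n := by exact_mod_cast hn
    omega
  have h4 : res dg {d | f d = n} (∑ i ∈ Finset.range n, x ᵥ* ν ^ i) = 0 := by
    rw [map_sum]
    refine Finset.sum_eq_zero fun i hi => ?_
    refine (hpow i).res_eq_zero fun d hd hc => ?_
    have h5 : f d = i := hd
    have h6 : f d = n := hc
    have h7 := Finset.mem_range.1 hi
    omega
  rw [map_sub, map_add, h3, h4, (hpow n).res_eq, zero_add, zero_sub, neg_eq_zero] at h2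
  exact h2

end chn

theorem chn : ChnStatement.{u} := by
  intro k Γ 𝔻 _ _ _ P hP J _ _ dg ν hν hu
  classical
  choose dd hdd using exists_pow_zero P hP dg ν hν hu
  refine ⟨∑ j, dd j, ?_⟩
  intro D _ π dg' hπ hdg hW
  set d := ∑ j, dd j with hd
  have hle : ∀ j, dd j ≤ d := fun j =>
    Finset.single_le_sum (f := dd) (fun _ _ => Nat.zero_le _) (Finset.mem_univ j)
  -- a nonzero homogeneous part
  have hne : ∀ (z : J → MonoidAlgebra k Γ) (S : Set D), res dg' S z ≠ 0 →
      ∃ l h, (z l).coeff h ≠ 0 ∧ h • dg' l ∈ S := by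
    intro z S hz
    by_contra hc
    push Not at hc
    exact hz (funext fun l => fil_eq_zero fun h hh => hc l h hh)
  -- transitions
  have htr : ∀ (z : J → MonoidAlgebra k Γ) (S : Set D) (c : D),
      res dg' {c} ((res dg' S z) ᵥ* ν) ≠ 0 →
      ∃ l h, (z l).coeff h ≠ 0 ∧ h • dg' l ∈ S ∧ P.R (h • dg l) (π c) := by
    intro z S c hz
    obtain ⟨l, h, hh, hc⟩ := hne _ _ hz
    rw [Matrix.vecMul, dotProduct] at hh
    obtain ⟨i, _, hi⟩ := coeff_sum_ne hh
    obtain ⟨a, b, ha, hb, rfl⟩ := coeff_mul_ne_zero hi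
    have h1 := fil_ne ha
    refine ⟨i, a, h1.2, h1.1, ?_⟩
    have h2 := P.inv a _ _ (hν i l b hb)
    have h3 : (a * b) • dg' l = c := hc
    rw [← h3, hπ, hdg, mul_smul]
    exact h2
  have key : ∀ (j : J) (n : ℕ), n ≤ d → ∀ l : List D, l.length = n →
      itc dg' ν l (Pi.single j (1 : MonoidAlgebra k Γ)) = 0 ∨
      ∃ c : D, itc dg' ν l (Pi.single j (1 : MonoidAlgebra k Γ)) =
        res dg' {c} (Pi.single j (1 : MonoidAlgebra k Γ) ᵥ* ν ^ n) := by
    intro j n
    obtain ⟨f, hf0, hf1, hf2, hf3⟩ := hP (dg j)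
    have hlev : ∀ n, ∀ p ∈ Wd ν j n, f (p.1 • dg p.2) = n := by
      intro n
      induction n with
      | zero =>
        rintro p hp
        have : p = (1, j) := hp
        rw [this, one_smul, hf0, Nat.cast_zero]
      | succ n ih =>
        rintro ⟨a, l⟩ ⟨q, hq, s, hs, ha⟩
        have h1 := ih q hq
        have h2 := P.inv q.1 _ _ (hν q.2 l s hs)
        have h3 := hf2 _ _ h2 (by rw [h1]; exact Int.natCast_nonneg n)
        have ha' : a = q.1 * s := ha
        show f (a • dg l) = _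
        rw [ha', mul_smul, h3, h1]
        push_cast
        rfl
    induction n with
    | zero =>
      intro _ l hl
      right
      rw [List.length_eq_zero_iff] at hl
      subst hl
      refine ⟨dg' j, ?_⟩
      rw [itc_nil, pow_zero, Matrix.vecMul_one, (spt_single dg' j).res_eq]
    | succ n ih =>
      intro hn l hl
      have hne' : l ≠ [] := by
        rintro rfl
        simp at hl
      obtain ⟨l₀, c, rfl⟩ : ∃ l₀ c, l = l₀ ++ [c] :=
        ⟨l.dropLast, l.getLast hne', (List.dropLast_append_getLast hne').symm⟩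
      have hl₀ : l₀.length = n := by
        rw [List.length_append, List.length_singleton] at hl
        omega
      rw [itc_append, itc_cons, itc_nil]
      rcases ih (by omega) l₀ hl₀ with h0 | ⟨c₀, hc₀⟩
      · left
        rw [h0, Matrix.zero_vecMul, map_zero]
      · rw [hc₀]
        set z := Pi.single j (1 : MonoidAlgebra k Γ) ᵥ* ν ^ n with hz
        by_cases h1 : res dg' {c} ((res dg' {c₀} z) ᵥ* ν) = 0
        · left; exact h1
        right
        refine ⟨c, ?_⟩
        have h2 : Pi.single j (1 : MonoidAlgebra k Γ) ᵥ* ν ^ (n + 1) = z ᵥ* ν := by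
          rw [hz, pow_succ, ← Matrix.vecMul_vecMul]
        rw [h2]
        have h3 : res dg' {c} ((res dg' {c₀}ᶜ z) ᵥ* ν) = 0 := by
          by_contra h4
          obtain ⟨l₁, g₁, ha₁, hb₁, hr₁⟩ := htr z _ c h1
          obtain ⟨l₂, g₂, ha₂, hb₂, hr₂⟩ := htr z _ c h4
          have hw₁ := pow_mem_wd ν j n l₁ g₁ ha₁
          have hw₂ := pow_mem_wd ν j n l₂ g₂ ha₂
          have hl₁ := hlev n _ hw₁
          have hl₂ := hlev n _ hw₂
          have heq : g₁ • dg l₁ = g₂ • dg l₂ := by
            refine hf3 _ _ _ hr₁ hr₂ ?_ ?_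
            · rw [hl₁]; exact Int.natCast_nonneg n
            · rw [hl₁, hl₂]
          have heq' := hW j n (by omega) _ hw₁ _ hw₂ heq
          have e1 : g₁ • dg' l₁ = c₀ := hb₁
          have e2 : g₁ • dg' l₁ = g₂ • dg' l₂ := heq'
          exact hb₂ (by
            show g₂ • dg' l₂ = c₀
            rw [← e2, e1])
        have h5 : z ᵥ* ν = (res dg' {c₀} z) ᵥ* ν + (res dg' {c₀}ᶜ z) ᵥ* ν := by
          rw [← Matrix.add_vecMul, res_compl]
        rw [h5, map_add, h3, add_zero]
  have hbasis : ∀ (j : J) (l : List D), l.length = d →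
      itc dg' ν l (Pi.single j (1 : MonoidAlgebra k Γ)) = 0 := by
    intro j l hl
    rcases key j d le_rfl l hl with h | ⟨c, hc⟩
    · exact h
    · rw [hc, hdd j d (hle j), map_zero]
  intro l hl x
  rw [row_eq_sum x, itc_sum]
  refine Finset.sum_eq_zero fun j _ => ?_
  rw [itc_sum]
  refine Finset.sum_eq_zero fun h _ => ?_
  have h1 : l = (l.map (h⁻¹ • ·)).map (h • ·) := by
    rw [List.map_map]
    conv_lhs => rw [← List.map_id l]
    refine List.map_congr_left fun a _ => ?_
    show a = h • (h⁻¹ • a)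
    rw [smul_inv_smul]
  rw [h1, itc_smul, hbasis j _ (by rw [List.length_map, hl]), smul_zero]

end Pool.Agent.NegK.TW.H69
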