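import Pool.Agent.Lib.MP_28303a_al.TW.Lemmas

/-! # Module WDF: finiteness of `Wd` -/

set_option autoImplicit false
set_option linter.unusedSectionVars false
set_option linter.unusedVariables false

namespace Pool.Agent.NegK.TW.H69

universe u v w

open Matrix MonoidAlgebra

theorem wdf : WdfStatement.{u} := by
  intro k Γ _ _ J _ ν j n
  induction n with
  | zero => exact Set.finite_singleton _
  | succ n ih =>
    have h1 : (⋃ q ∈ Wd ν j n, ⋃ l : J,
        (fun s : Γ => (q.1 * s, l)) '' ((ν q.2 l).coeff.support : Set Γ)).Finite := by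
      refine ih.biUnion fun q _ => ?_
      refine Set.finite_iUnion fun l => ?_
      exact (Finset.finite_toSet _).image _
    refine h1.subset ?_
    rintro ⟨a, l⟩ ⟨q, hq, s, hs, ha⟩
    refine Set.mem_biUnion hq (Set.mem_iUnion.2 ⟨l, s, ?_, ?_⟩)
    · exact Finset.mem_coe.2 (Finsupp.mem_support_iff.2 hs)
    · exact Prod.ext ha.symm rfl

end Pool.Agent.NegK.TW.H69
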